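import Mathlib
import Pool.Agent.H712R2.Par

set_option autoImplicit false

/-! # Harnack's inequality along Lipschitz paths -/

namespace Pool.Agent.Q72.AC

open Complex Filter Topology Set Metric

/-- the gradient of `log ‖g‖` for `‖g‖ > 1` -/
theorem log_slope {g : ℂ → ℂ} {z : ℂ} {D : ℝ} (hD : 0 < D) (hg : DifferentiableOn ℂ g (ball z D))
    (h1 : ∀ x ∈ ball z D, 1 < ‖g x‖) : ∀ ε : ℝ, 0 < ε → ∀ᶠ x in 𝓝 z,
      |Real.log (Real.log ‖g x‖) - Real.log (Real.log ‖g z‖)| ≤ (2 / D + ε) * ‖x - z‖ := by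
  have hz : z ∈ ball z D := mem_ball_self hD
  have hne : ∀ x ∈ ball z D, g x ≠ 0 := by
    intro x hx h0
    have := h1 x hx
    rw [h0, norm_zero] at this
    linarith
  obtain ⟨ℓ, hℓ, -, hexp⟩ := Pool.Agent.H712R2.M.exists_log_ball hD hg hne (Complex.log (g z))
    (Complex.exp_log (hne z hz))
  have hre : ∀ x ∈ ball z D, (ℓ x).re = Real.log ‖g x‖ := by
    intro x hx
    rw [← hexp x hx, Complex.norm_exp, Real.log_exp]
  have hpos : ∀ x ∈ ball z D, 0 < (ℓ x).re := by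
    intro x hx
    rw [hre x hx]
    exact Real.log_pos (h1 x hx)
  have ha := hpos z hz
  obtain ⟨a, haz⟩ : ∃ a, a = ℓ z := ⟨_, rfl⟩
  rw [← haz] at ha
  -- Schwarz's lemma
  have hden : ∀ x ∈ ball z D, ℓ x + (starRingEnd ℂ) a ≠ 0 := by
    intro x hx h0
    have h2 := congrArg Complex.re h0
    simp only [Complex.add_re, Complex.conj_re, Complex.zero_re] at h2
    have := hpos x hx
    linarith
  obtain ⟨m, hm⟩ : ∃ m : ℂ → ℂ, m = fun x => (ℓ x - a) / (ℓ x + (starRingEnd ℂ) a) := ⟨_, rfl⟩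
  have hmd : DifferentiableOn ℂ m (ball z D) := by
    rw [hm]
    exact (hℓ.sub_const a).div (hℓ.add_const _) hden
  have hmz : m z = 0 := by rw [hm]; simp [haz]
  have hmaps : MapsTo m (ball z D) (closedBall (m z) 1) := by
    intro x hx
    rw [hmz, mem_closedBall_zero_iff, hm]
    simp only
    rw [norm_div, div_le_one (norm_pos_iff.2 (hden x hx))]
    have h2 : ‖ℓ x - a‖ ^ 2 ≤ ‖ℓ x + (starRingEnd ℂ) a‖ ^ 2 := by
      rw [← Complex.normSq_eq_norm_sq, ← Complex.normSq_eq_norm_sq, Complex.normSq_apply,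
        Complex.normSq_apply]
      simp only [Complex.sub_re, Complex.sub_im, Complex.add_re, Complex.add_im, Complex.conj_re,
        Complex.conj_im]
      nlinarith [mul_pos (hpos x hx) ha]
    exact (pow_le_pow_iff_left₀ (norm_nonneg _) (norm_nonneg _) two_ne_zero).1 h2
  have hder := Complex.norm_deriv_le_div_of_mapsTo_ball hmd hmaps hD
  have hℓz : HasDerivAt ℓ (deriv ℓ z) z := (hℓ.differentiableAt (isOpen_ball.mem_nhds hz)).hasDerivAt
  have hderm : deriv m z = deriv ℓ z / (2 * a.re : ℝ) := by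
    have h2 : HasDerivAt m ((deriv ℓ z * (ℓ z + (starRingEnd ℂ) a) - (ℓ z - a) * deriv ℓ z) /
        (ℓ z + (starRingEnd ℂ) a) ^ 2) z := by
      rw [hm]
      exact (hℓz.sub_const a).div (hℓz.add_const _) (hden z hz)
    rw [h2.deriv, ← haz, sub_self, zero_mul, sub_zero, Complex.add_conj]
    have h3 : ((2 * a.re : ℝ) : ℂ) ≠ 0 := by
      exact_mod_cast (by positivity : (2 * a.re : ℝ) ≠ 0)
    field_simp
  rw [hderm, norm_div, Complex.norm_real, Real.norm_of_nonneg (by positivity)] at hder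
  have hgrad : ‖deriv ℓ z‖ / a.re ≤ 2 / D := by
    rw [div_le_div_iff₀ (by positivity) hD] at hder
    rw [div_le_div_iff₀ ha hD]
    linarith
  -- the real function
  have hF : HasFDerivAt (fun x => Real.log (ℓ x).re) ((ℓ z).re⁻¹ •
      (Complex.reCLM.comp ((ContinuousLinearMap.toSpanSingleton ℂ
        (deriv ℓ z)).restrictScalars ℝ))) z := by
    have h2 : HasFDerivAt (fun x => (ℓ x).re) (Complex.reCLM.comp
        ((ContinuousLinearMap.toSpanSingleton ℂ (deriv ℓ z)).restrictScalars ℝ)) z :=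
      Complex.reCLM.hasFDerivAt.comp z (hℓz.hasFDerivAt.restrictScalars ℝ)
    exact h2.log (hpos z hz).ne'
  intro ε hε
  have h2 := hF.isLittleO.bound hε
  filter_upwards [h2, isOpen_ball.mem_nhds hz] with x hx hxb
  rw [← hre x hxb, ← hre z hz]
  have h3 : ‖((ℓ z).re⁻¹ • (Complex.reCLM.comp ((ContinuousLinearMap.toSpanSingleton ℂ
      (deriv ℓ z)).restrictScalars ℝ))) (x - z)‖ ≤ 2 / D * ‖x - z‖ := by
    rw [smul_apply, norm_smul, Real.norm_of_nonneg (by
      rw [← haz]; positivity)]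
    have h4 : ‖(Complex.reCLM.comp ((ContinuousLinearMap.toSpanSingleton ℂ
        (deriv ℓ z)).restrictScalars ℝ)) (x - z)‖ ≤ ‖deriv ℓ z‖ * ‖x - z‖ := by
      show ‖(((x - z) • deriv ℓ z : ℂ)).re‖ ≤ _
      rw [Real.norm_eq_abs]
      refine (Complex.abs_re_le_norm _).trans ?_
      rw [smul_eq_mul, norm_mul, mul_comm]
    calc (ℓ z).re⁻¹ * ‖(Complex.reCLM.comp ((ContinuousLinearMap.toSpanSingleton ℂ
        (deriv ℓ z)).restrictScalars ℝ)) (x - z)‖ ≤ (ℓ z).re⁻¹ * (‖deriv ℓ z‖ * ‖x - z‖) := by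
          gcongr
          exact (inv_pos.2 (hpos z hz)).le
      _ = ‖deriv ℓ z‖ / a.re * ‖x - z‖ := by rw [← haz]; ring
      _ ≤ 2 / D * ‖x - z‖ := by gcongr
  have h5 := norm_add_le (Real.log (ℓ x).re - Real.log (ℓ z).re -
    ((ℓ z).re⁻¹ • (Complex.reCLM.comp ((ContinuousLinearMap.toSpanSingleton ℂ
      (deriv ℓ z)).restrictScalars ℝ))) (x - z))
    (((ℓ z).re⁻¹ • (Complex.reCLM.comp ((ContinuousLinearMap.toSpanSingleton ℂ
      (deriv ℓ z)).restrictScalars ℝ))) (x - z))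
  rw [sub_add_cancel, Real.norm_eq_abs] at h5
  linarith

/-- **Paths**: a lower bound along a path from the bounds of the slopes. -/
theorem path_lower {F : ℂ → ℝ} {γ : ℝ → ℂ} {t₀ : ℝ} {h H : ℝ → ℝ}
    (hγ : ∀ s ∈ Ioc 0 t₀, ∀ t ∈ Ioc 0 t₀, ‖γ s - γ t‖ ≤ |s - t|)
    (hF : ∀ t ∈ Ioc 0 t₀, ∀ ε : ℝ, 0 < ε → ∀ᶠ x in 𝓝 (γ t),
      |F x - F (γ t)| ≤ (2 / h t + ε) * ‖x - γ t‖)
    (hh : ∀ t ∈ Ioc 0 t₀, 0 < h t)
    (hH : ∀ t ∈ Ioc 0 t₀, HasDerivAt H (-(2 / h t)) t) {t : ℝ} (ht : t ∈ Ioc 0 t₀) :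
    F (γ t₀) - (H t - H t₀) ≤ F (γ t) := by
  -- continuity
  have hcont : ∀ s ∈ Ioc 0 t₀, ContinuousWithinAt (fun s => γ s) (Ioc 0 t₀) s := by
    intro s hs
    rw [Metric.continuousWithinAt_iff]
    intro ε hε
    refine ⟨ε, hε, fun {x} hx hxs => ?_⟩
    rw [dist_eq_norm]
    rw [Real.dist_eq] at hxs
    exact (hγ x hx s hs).trans_lt hxs
  have hFc : ∀ s ∈ Ioc 0 t₀, ContinuousAt F (γ s) := by
    intro s hs
    rw [Metric.continuousAt_iff']
    intro ε hε
    have hh' := hh s hs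
    have h1 := hF s hs 1 one_pos
    have h2 : ∀ᶠ x in 𝓝 (γ s), ‖x - γ s‖ < ε / (2 / h s + 1) := by
      have : 0 < ε / (2 / h s + 1) := by positivity
      filter_upwards [Metric.ball_mem_nhds (γ s) this] with x hx
      rwa [mem_ball, dist_eq_norm] at hx
    filter_upwards [h1, h2] with x hx1 hx2
    rw [Real.dist_eq]
    refine hx1.trans_lt ?_
    rw [lt_div_iff₀ (by positivity)] at hx2
    linarith
  obtain ⟨T, hT⟩ : ∃ T, T = t₀ - t := ⟨_, rfl⟩
  have hT0 : 0 ≤ T := by rw [hT]; linarith [ht.2]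
  have hmem : ∀ s ∈ Icc 0 T, t₀ - s ∈ Ioc 0 t₀ := by
    intro s hs
    constructor
    · have := hs.2
      rw [hT] at this
      linarith [ht.1]
    · linarith [hs.1]
  have hmain := image_le_of_liminf_slope_right_le_deriv_boundary (a := 0) (b := T)
    (f := fun s => -F (γ (t₀ - s))) (B := fun s => H (t₀ - s) - H t₀ - F (γ t₀))
    (B' := fun s => 2 / h (t₀ - s)) (by
      intro s hs
      have h1 : ContinuousWithinAt (fun s => γ (t₀ - s)) (Icc 0 T) s := by
        have h2 : ContinuousWithinAt (fun s : ℝ => t₀ - s) (Icc 0 T) s :=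
          (continuous_const.sub continuous_id).continuousWithinAt
        exact (hcont (t₀ - s) (hmem s hs)).comp h2 hmem
      exact (ContinuousAt.comp_continuousWithinAt (f := fun s => γ (t₀ - s)) (g := F)
        (hFc _ (hmem s hs)) h1).neg)
    (by simp) (by
      intro s hs
      have h1 : ContinuousAt (fun s : ℝ => H (t₀ - s)) s := by
        have h2 := (hH _ (hmem s hs)).continuousAt
        exact ContinuousAt.comp (f := fun s : ℝ => t₀ - s) (g := H) h2
          (continuous_const.sub continuous_id).continuousAt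
      exact ((h1.sub continuousAt_const).sub continuousAt_const).continuousWithinAt)
    (by
      intro s hs
      have hs' : s ∈ Icc 0 T := ⟨hs.1, hs.2.le⟩
      have h1 := hH _ (hmem s hs')
      have h2 : HasDerivAt (fun s : ℝ => t₀ - s) (-1) s := by
        simpa using (hasDerivAt_id s).const_sub t₀
      have h3 := HasDerivAt.comp s h1 h2
      have h4 := (h3.sub_const (H t₀)).sub_const (F (γ t₀))
      have h5 : -(2 / h (t₀ - s)) * -1 = 2 / h (t₀ - s) := by ring
      rw [h5] at h4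
      exact h4.hasDerivWithinAt)
    (by
      intro s hs r hr
      have hs' : s ∈ Icc 0 T := ⟨hs.1, hs.2.le⟩
      obtain ⟨ε, hε⟩ : ∃ ε, ε = (r - 2 / h (t₀ - s)) / 2 := ⟨_, rfl⟩
      have hε0 : 0 < ε := by rw [hε]; linarith
      have h1 := hF _ (hmem s hs') ε hε0
      have hlim : Tendsto (fun z : ℝ => γ (t₀ - z)) (𝓝[>] s) (𝓝 (γ (t₀ - s))) := by
        have h2 := hcont (t₀ - s) (hmem s hs')
        have h3 : Tendsto (fun z : ℝ => t₀ - z) (𝓝[>] s) (𝓝[Ioc 0 t₀] (t₀ - s)) := by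
          rw [tendsto_nhdsWithin_iff]
          refine ⟨?_, ?_⟩
          · exact ((continuous_const.sub continuous_id).tendsto s).mono_left nhdsWithin_le_nhds
          · have h4 : ∀ᶠ z in 𝓝[>] s, z ∈ Ioo s T := Ioo_mem_nhdsGT hs.2
            filter_upwards [h4] with z hz
            exact hmem z ⟨hs.1.trans hz.1.le, hz.2.le⟩
        exact h2.tendsto.comp h3
      have h2 := hlim.eventually h1
      have h4 : ∀ᶠ z in 𝓝[>] s, z ∈ Ioo s T := Ioo_mem_nhdsGT hs.2
      apply Eventually.frequently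
      filter_upwards [h2, h4] with z hz1 hz2
      rw [slope_def_field, div_lt_iff₀ (by linarith [hz2.1])]
      have h5 := hγ (t₀ - z) (hmem z ⟨hs.1.trans hz2.1.le, hz2.2.le⟩) (t₀ - s) (hmem s hs')
      have h6 : |t₀ - z - (t₀ - s)| = z - s := by
        rw [show t₀ - z - (t₀ - s) = -(z - s) by ring, abs_neg, abs_of_pos (by linarith [hz2.1])]
      rw [h6] at h5
      have h7 : 0 < 2 / h (t₀ - s) := div_pos two_pos (hh _ (hmem s hs'))
      have h8 := abs_le.1 hz1
      have h9 : (2 / h (t₀ - s) + ε) * ‖γ (t₀ - z) - γ (t₀ - s)‖ ≤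
          (2 / h (t₀ - s) + ε) * (z - s) := by gcongr
      have h10 : (2 / h (t₀ - s) + ε) * (z - s) < r * (z - s) := by
        apply mul_lt_mul_of_pos_right _ (by linarith [hz2.1])
        rw [hε]
        linarith
      linarith [h8.1])
  have h1 := hmain (x := T) ⟨hT0, le_rfl⟩
  have h2 : t₀ - T = t := by rw [hT]; ring
  simp only [h2] at h1
  linarith

end Pool.Agent.Q72.AC
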