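import Pool.Agent.Q72.MR.G
import Pool.Agent.Y736.RN.F
import Pool.Agent.Y736.RN.LP
import Pool.Agent.Y736.RN.JZ
import Pool.Agent.Y736.RN.QS
import Pool.Agent.Y736.RN.DC
import Pool.Agent.Y736.RN.SEQ

set_option autoImplicit false

/-! # Renormalizable parameters and Green's function (copied from `Pool.Agent.Y736.RN.G`, `J`, `L`,
with fewer imports) -/

namespace Pool.Agent.Q72.AC

open Complex Filter Topology Set Metric MeasureTheory Pool.Agent.H713R2
open N62a1eb23
open Pool.Agent.H712R2 (P P_succ P_one P_zero fc continuous_P mem_multibrot_iff)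
open Pool.Agent.Y736.HD (Ang vol_Ang_ne)
open Pool.Agent.Y736.RN (Fast Ren dim_ren lp jz qs dc seq diff_it_y diff_it_c cont_it iter_P)
open Pool.Agent.Q72.MR (green_lower_R)

variable {d : ℕ} {ψ : ℂ → ℂ}

theorem ev_pos : ∀ᶠ r : ℝ in 𝓝[>] 0, 0 < r := self_mem_nhdsWithin

theorem ev_lt {a : ℝ} (ha : 0 < a) : ∀ᶠ r : ℝ in 𝓝[>] 0, r < a :=
  nhdsWithin_le_nhds (gt_mem_nhds ha)

/-- Green's function is at least of size `r ^ κ` on infinitely many scales -/
def Big (ψ : ℂ → ℂ) (κ : ℝ) (c : ℂ) : Prop :=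
  ∃ η : ℝ, 0 < η ∧ ∃ᶠ r : ℝ in 𝓝[>] 0, ∃ w : ℂ, 1 < ‖w‖ ∧ ‖ψ w - c‖ ≤ r ∧
    η * r ^ κ ≤ Real.log ‖w‖

theorem Big.mono {κ κ' : ℝ} (h : κ ≤ κ') {c : ℂ} (hB : Big ψ κ c) : Big ψ κ' c := by
  obtain ⟨η, hη, hf⟩ := hB
  refine ⟨η, hη, ?_⟩
  refine (hf.and_eventually (ev_pos.and (ev_lt one_pos))).mono ?_
  rintro r ⟨⟨w, h1, h2, h3⟩, hr0, hr1⟩
  refine ⟨w, h1, h2, le_trans ?_ h3⟩
  have := Real.rpow_le_rpow_of_exponent_ge hr0 hr1.le h
  gcongr

theorem fast_of_big (hd : 2 ≤ d) {p : ℕ} (hp : 1 ≤ p) (hψ : IsExteriorMap (multibrotSet d) ψ)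
    {c : ℂ} {κ X : ℝ} (hκ : 0 < κ) (hX : 0 < X) (hXκ : X * κ < p * Real.log d) (hB : Big ψ κ c)
    {V : Set ℂ} (hVb : Bornology.IsBounded V) : Fast d p V X c := by
  obtain ⟨η, hη, hf⟩ := hB
  obtain ⟨R₀, hR₀⟩ := hVb.exists_norm_le
  obtain ⟨R, hR⟩ : ∃ R, R = max R₀ (2 + ‖c‖) := ⟨_, rfl⟩
  have hR2 : 2 + ‖c‖ ≤ R := by rw [hR]; exact le_max_right _ _
  have hc0 := norm_nonneg c
  have hVR : ∀ y ∈ V, ‖y‖ ≤ R := fun y hy => (hR₀ y hy).trans (by rw [hR]; exact le_max_left _ _)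
  have hdR : (1 : ℝ) < d := by exact_mod_cast (by omega : 1 < d)
  have hlogd : 0 < Real.log d := Real.log_pos hdR
  have hpR : (1 : ℝ) ≤ p := by exact_mod_cast hp
  obtain ⟨C₁, hC₁⟩ : ∃ C₁, C₁ = Real.log (d * Real.log (R + 1)) - Real.log η := ⟨_, rfl⟩
  have hlogR : 0 < Real.log (R + 1) := Real.log_pos (by linarith)
  obtain ⟨θ, hθ⟩ : ∃ θ, θ = p * Real.log d / X - κ := ⟨_, rfl⟩
  have hθ0 : 0 < θ := by
    rw [hθ, sub_pos, lt_div_iff₀ hX]
    linarith
  unfold Fast
  rw [frequently_atTop]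
  intro N
  -- a small scale
  have hlim : Tendsto (fun r : ℝ => -Real.log r) (𝓝[>] 0) atTop :=
    tendsto_neg_atBot_atTop.comp Real.tendsto_log_nhdsGT_zero
  have hbig := hlim.eventually (eventually_ge_atTop (max (X * (N + 1)) ((C₁ + p * Real.log d) / θ + 1)))
  obtain ⟨r, ⟨w, hw, hwr, hwη⟩, hr0, hr1, hr2⟩ := (hf.and_eventually
    (ev_pos.and ((ev_lt one_pos).and hbig))).exists
  obtain ⟨L, hL⟩ : ∃ L, L = -Real.log r := ⟨_, rfl⟩
  rw [← hL] at hr2
  have hL1 : X * (N + 1) ≤ L := (le_max_left _ _).trans hr2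
  have hL2 : (C₁ + p * Real.log d) / θ + 1 ≤ L := (le_max_right _ _).trans hr2
  have hL0 : 0 < L := lt_of_lt_of_le (by positivity) hL1
  obtain ⟨n, hn⟩ : ∃ n, n = ⌊L / X⌋₊ := ⟨_, rfl⟩
  have hn1 : (n : ℝ) ≤ L / X := by rw [hn]; exact Nat.floor_le (by positivity)
  have hn2 : L / X < n + 1 := by rw [hn]; exact Nat.lt_floor_add_one _
  have hnN : N + 1 ≤ n := by
    rw [hn]
    apply Nat.le_floor
    rw [le_div_iff₀ hX]
    push_cast
    linarith
  refine ⟨n, by omega, ψ w, ?_, ?_⟩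
  · rw [mem_closedBall, dist_eq_norm]
    refine hwr.trans ?_
    rw [← Real.log_le_iff_le_exp hr0]
    rw [le_div_iff₀ hX] at hn1
    linarith
  · by_contra hcon
    push Not at hcon
    have h1 : ‖ψ w‖ ≤ R := by
      have := norm_add_le (ψ w - c) c
      rw [sub_add_cancel] at this
      linarith
    obtain ⟨m, hm⟩ : ∃ m, p * n = m + 1 := ⟨p * n - 1, by
      have : 1 ≤ p * n := Nat.mul_pos hp (by omega)
      omega⟩
    have h2 : ‖P d (m + 1) (ψ w)‖ ≤ R := by
      rw [← hm]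
      exact hVR _ (hcon n le_rfl)
    have h3 := green_lower_R hd hψ hw (by linarith) h1 h2
    have h4 := Real.log_le_log (by positivity) h3
    rw [Real.log_pow] at h4
    push_cast at h4
    have h5 : η * r ^ κ * (d : ℝ) ^ (m + 1) ≤ d * Real.log (R + 1) := by
      have h6 : (d : ℝ) ^ m * (η * r ^ κ) ≤ (d : ℝ) ^ m * Real.log ‖w‖ := by gcongr
      calc η * r ^ κ * (d : ℝ) ^ (m + 1) = d * ((d : ℝ) ^ m * (η * r ^ κ)) := by ring
        _ ≤ d * Real.log (R + 1) := by
          apply mul_le_mul_of_nonneg_left _ (by linarith)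
          exact h6.trans h4
    have hrκ : 0 < r ^ κ := Real.rpow_pos_of_pos hr0 _
    have h6 := Real.log_le_log (by positivity) h5
    rw [Real.log_mul (by positivity) (by positivity), Real.log_mul hη.ne' hrκ.ne',
      Real.log_rpow hr0, Real.log_pow, ← hm] at h6
    push_cast at h6
    have h7 : (p : ℝ) * n * Real.log d ≤ κ * L + C₁ := by
      rw [hC₁, hL]
      linarith
    have h8 : (p : ℝ) * (L / X - 1) * Real.log d < p * n * Real.log d := by
      have : L / X - 1 < n := by linarith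
      gcongr
    have h9 : L * θ < C₁ + p * Real.log d := by
      have h10 : (p : ℝ) * (L / X - 1) * Real.log d = L * (p * Real.log d / X) - p * Real.log d := by
        field_simp
      rw [hθ]
      nlinarith
    rw [← lt_div_iff₀ hθ0] at h9
    linarith

/-- a renormalizable parameter lies in the connectedness locus -/
theorem ren_mem {p : ℕ} (hp : 1 ≤ p) {c : ℂ} (h : Ren d c p) : c ∈ multibrotSet d := by
  obtain ⟨U, ⟨_, hUb, _⟩, _, hU⟩ := h
  intro ht
  have h1 : Tendsto (fun n : ℕ => (n + 1) * p) atTop atTop := by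
    refine tendsto_atTop_mono (fun n => ?_) (tendsto_id (α := ℕ))
    show n ≤ (n + 1) * p
    nlinarith
  have h2 := ht.comp h1
  have h3 : ∀ᶠ z in Bornology.cobounded ℂ, z ∉ U := hUb
  obtain ⟨n, hn⟩ := (h2.eventually h3).exists
  exact hn (hU (n + 1) (by omega))

/-- **The dimension bound, in terms of Green's function.** -/
theorem dim_big (hd : 2 ≤ d) {p : ℕ} (hp : 1 ≤ p) (hψ : IsExteriorMap (multibrotSet d) ψ)
    {κ : ℝ} (hκ : 0 < κ) : dimH {c | Ren d c p ∧ Big ψ κ c} ≤ ENNReal.ofReal (κ / p) := by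
  have hdR : (1 : ℝ) < d := by exact_mod_cast (by omega : 1 < d)
  have hlogd : 0 < Real.log d := Real.log_pos hdR
  have hpR : (1 : ℝ) ≤ p := by exact_mod_cast hp
  have h1 : Tendsto (fun t : ℝ => ENNReal.ofReal (κ / (p * t))) (𝓝[<] 1)
      (𝓝 (ENNReal.ofReal (κ / (p * 1)))) := by
    apply ENNReal.tendsto_ofReal
    refine (tendsto_const_nhds.div (tendsto_id.const_mul _) ?_).mono_left nhdsWithin_le_nhds
    positivity
  rw [mul_one] at h1
  apply ge_of_tendsto h1
  have h2 : ∀ᶠ t : ℝ in 𝓝[<] 1, 0 < t := nhdsWithin_le_nhds (lt_mem_nhds one_pos)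
  filter_upwards [h2, self_mem_nhdsWithin] with t ht0 ht1
  have ht1' : t < 1 := ht1
  have hX : 0 < t * (p * Real.log d) / κ := by positivity
  have h3 := dim_ren lp jz qs dc seq hd hp hX (A := {c | Ren d c p ∧ Big ψ κ c}) (by
    rintro c ⟨hr, hB⟩
    refine ⟨hr, fun V hVb => fast_of_big hd hp hψ hκ hX ?_ hB hVb⟩
    rw [div_mul_cancel₀ _ hκ.ne']
    have : 0 < p * Real.log d := by positivity
    nlinarith)
  have h4 : Real.log d / (t * (p * Real.log d) / κ) = κ / (p * t) := by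
    field_simp
  rwa [h4] at h3

/-- **The infinitely renormalizable parameters.** -/
theorem dim_inf (hd : 2 ≤ d) (hψ : IsExteriorMap (multibrotSet d) ψ) {A : Set ℂ}
    (hA : ∀ c ∈ A, {p : ℕ | Ren d c p}.Infinite ∧ ∃ κ : ℝ, 0 < κ ∧ Big ψ κ c) : dimH A = 0 := by
  have hsub : A ⊆ ⋃ k : ℕ, {c | {p : ℕ | Ren d c p}.Infinite ∧ Big ψ ((k : ℝ) + 1) c} := by
    intro c hc
    obtain ⟨h1, κ, _, h2⟩ := hA c hc
    obtain ⟨k, hk⟩ := exists_nat_ge κ
    exact mem_iUnion.2 ⟨k, h1, h2.mono (by linarith)⟩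
  apply le_antisymm _ bot_le
  refine (dimH_mono hsub).trans ?_
  rw [dimH_iUnion]
  apply iSup_le
  intro k
  have h1 : ∀ N : ℕ, dimH {c | {p : ℕ | Ren d c p}.Infinite ∧ Big ψ ((k : ℝ) + 1) c} ≤
      ENNReal.ofReal (((k : ℝ) + 1) / ((N : ℝ) + 1)) := by
    intro N
    have h2 : {c | {p : ℕ | Ren d c p}.Infinite ∧ Big ψ ((k : ℝ) + 1) c} ⊆
        ⋃ p : {p : ℕ // N + 1 ≤ p}, {c | Ren d c p ∧ Big ψ ((k : ℝ) + 1) c} := by
      rintro c ⟨h3, h4⟩
      obtain ⟨p, hp, hpN⟩ := h3.exists_gt N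
      exact mem_iUnion.2 ⟨⟨p, hpN⟩, hp, h4⟩
    refine (dimH_mono h2).trans ?_
    rw [dimH_iUnion]
    apply iSup_le
    rintro ⟨p, hp⟩
    refine (dim_big (p := p) hd (le_trans (Nat.le_add_left 1 N) hp) hψ (by positivity)).trans ?_
    apply ENNReal.ofReal_le_ofReal
    have h5 : ((N : ℝ) + 1) ≤ p := by exact_mod_cast hp
    gcongr
  have h2 : Tendsto (fun N : ℕ => ENNReal.ofReal (((k : ℝ) + 1) / ((N : ℝ) + 1))) atTop
      (𝓝 (ENNReal.ofReal 0)) := by
    apply ENNReal.tendsto_ofReal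
    have h3 := (tendsto_one_div_add_atTop_nhds_zero_nat (𝕜 := ℝ)).const_mul ((k : ℝ) + 1)
    rw [mul_zero] at h3
    refine h3.congr fun N => ?_
    ring
  rw [ENNReal.ofReal_zero] at h2
  exact ge_of_tendsto' h2 h1

/-- bounded geometry bounds the derivative along the critical orbit -/
theorem deriv_le' {c : ℂ} {p : ℕ} {U : Set ℂ} {C r : ℝ} (hr : 0 < r)
    (hball : ∀ n : ℕ, ball (P d (n * p) c) r ⊆ U)
    (hdiam : ∀ z ∈ U, ∀ z' ∈ U, ‖(fc d c)^[p] z - (fc d c)^[p] z'‖ ≤ C * r) (i : ℕ) :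
    ‖deriv ((fc d c)^[p]) (P d (p * i) c)‖ ≤ C := by
  have h1 : MapsTo ((fc d c)^[p]) (ball (P d (p * i) c) r)
      (closedBall ((fc d c)^[p] (P d (p * i) c)) (C * r)) := by
    intro z hz
    have hb := hball i
    rw [Nat.mul_comm] at hb
    rw [mem_closedBall, dist_eq_norm]
    exact hdiam z (hb hz) _ (hb (mem_ball_self hr))
  have h2 := Complex.norm_deriv_le_div_of_mapsTo_ball
    (diff_it_y d p c).differentiableOn h1 hr
  rwa [mul_div_assoc, div_self hr.ne', mul_one] at h2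

/-- orbits of nearby parameters stay close for a long time -/
theorem not_fast (hd : 2 ≤ d) {c : ℂ} (hc : c ∈ multibrotSet d) {p : ℕ} {C : ℝ} (hC : 0 ≤ C)
    (hder : ∀ i, ‖deriv ((fc d c)^[p]) (P d (p * i) c)‖ ≤ C) :
    ¬ Fast d p (ball 0 3) (Real.log (C + 3)) c := by
  have hb := (mem_multibrot_iff hd c).1 hc
  -- Lipschitz in the parameter
  obtain ⟨M, hM⟩ : ∃ M : ℝ, ∀ q ∈ closedBall c 2 ×ˢ closedBall (0 : ℂ) 3,
      ‖(fc d q.1)^[p] q.2‖ ≤ M :=
    ((isCompact_closedBall c 2).prod (isCompact_closedBall (0 : ℂ) 3)).exists_bound_of_continuousOn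
      (cont_it d p).continuousOn
  have hM0 : 0 ≤ M := (norm_nonneg _).trans (hM (c, 0) ⟨mem_closedBall_self (by norm_num),
    mem_closedBall_self (by norm_num)⟩)
  have hLip : ∀ c' ∈ closedBall c 1, ∀ z ∈ closedBall (0 : ℂ) 3,
      ‖(fc d c')^[p] z - (fc d c)^[p] z‖ ≤ 2 * M * ‖c' - c‖ := by
    intro c' hc' z hz
    have h1 : ∀ x ∈ closedBall c 1, ‖deriv (fun c => (fc d c)^[p] z) x‖ ≤ 2 * M := by
      intro x hx
      have h2 : MapsTo (fun c => (fc d c)^[p] z) (ball x 1)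
          (closedBall ((fc d x)^[p] z) (2 * M)) := by
        intro y hy
        rw [mem_closedBall, dist_eq_norm]
        have h3 := hM (y, z) ⟨by
          rw [mem_closedBall] at hx ⊢
          rw [mem_ball] at hy
          have := dist_triangle y x c
          linarith, hz⟩
        have h4 := hM (x, z) ⟨closedBall_subset_closedBall (by norm_num) hx, hz⟩
        have := norm_sub_le ((fc d y)^[p] z) ((fc d x)^[p] z)
        simp only at h3 h4
        linarith
      have h3 := Complex.norm_deriv_le_div_of_mapsTo_ball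
        (diff_it_c d p z).differentiableOn h2 one_pos
      rwa [div_one] at h3
    exact (convex_closedBall c 1).norm_image_sub_le_of_norm_deriv_le
      (fun x _ => (diff_it_c d p z) x) h1 (mem_closedBall_self (by norm_num)) hc'
  -- uniform continuity of the derivative
  have hdc : Continuous (deriv ((fc d c)^[p])) :=
    ((diff_it_y d p c).contDiff (n := 1)).continuous_deriv le_rfl
  have huc := (isCompact_closedBall (0 : ℂ) 3).uniformContinuousOn_of_continuous hdc.continuousOn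
  rw [Metric.uniformContinuousOn_iff] at huc
  obtain ⟨η, hη, huc⟩ := huc 1 one_pos
  obtain ⟨t, ht⟩ : ∃ t, t = min (η / 2) 1 := ⟨_, rfl⟩
  have ht0 : 0 < t := by rw [ht]; positivity
  have ht1 : t ≤ 1 := by rw [ht]; exact min_le_right _ _
  have htη : t < η := by
    have := min_le_left (η / 2) 1
    rw [ht]; linarith
  have hstep : ∀ (i : ℕ) (z : ℂ), ‖z - P d (p * i) c‖ ≤ t →
      ‖(fc d c)^[p] z - (fc d c)^[p] (P d (p * i) c)‖ ≤ (C + 1) * ‖z - P d (p * i) c‖ := by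
    intro i z hz
    have hsub : closedBall (P d (p * i) c) t ⊆ closedBall (0 : ℂ) 3 := by
      intro y hy
      rw [mem_closedBall, dist_eq_norm] at hy
      rw [mem_closedBall_zero_iff]
      have h1 := norm_add_le (y - P d (p * i) c) (P d (p * i) c)
      rw [sub_add_cancel] at h1
      have := hb (p * i)
      linarith
    have h1 : ∀ x ∈ closedBall (P d (p * i) c) t, ‖deriv ((fc d c)^[p]) x‖ ≤ C + 1 := by
      intro x hx
      have h2 := huc x (hsub hx) _ (hsub (mem_closedBall_self ht0.le)) (by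
        rw [mem_closedBall] at hx
        linarith)
      rw [dist_eq_norm] at h2
      have h3 := norm_add_le (deriv ((fc d c)^[p]) x - deriv ((fc d c)^[p]) (P d (p * i) c))
        (deriv ((fc d c)^[p]) (P d (p * i) c))
      rw [sub_add_cancel] at h3
      have := hder i
      linarith
    exact (convex_closedBall (P d (p * i) c) t).norm_image_sub_le_of_norm_deriv_le
      (fun x _ => (diff_it_y d p c) x) h1 (mem_closedBall_self ht0.le)
      (by rw [mem_closedBall, dist_eq_norm]; exact hz)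
  -- the recursion
  have hX : Real.exp (-(Real.log (C + 3))) = (C + 3)⁻¹ := by
    rw [Real.exp_neg, Real.exp_log (by linarith)]
  have hlim : Tendsto (fun n : ℕ => (2 * M + 1) * ((C + 2) / (C + 3)) ^ n) atTop
      (𝓝 ((2 * M + 1) * 0)) := by
    apply Tendsto.const_mul
    apply tendsto_pow_atTop_nhds_zero_of_lt_one (by positivity)
    rw [div_lt_one (by linarith)]
    linarith
  rw [mul_zero] at hlim
  intro hf
  obtain ⟨n, ⟨c', hc', i, hi, hiV⟩, hn⟩ := (hf.and_eventually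
    (hlim.eventually (gt_mem_nhds ht0))).exists
  apply hiV
  have hs : ‖c' - c‖ ≤ ((C + 3)⁻¹) ^ n := by
    rw [mem_closedBall, dist_eq_norm] at hc'
    refine hc'.trans (le_of_eq ?_)
    rw [← hX, ← Real.exp_nat_mul]
    congr 1
    ring
  have hs1 : ‖c' - c‖ ≤ 1 := hs.trans (pow_le_one₀ (by positivity)
    (inv_le_one_of_one_le₀ (by linarith)))
  have hbd : ∀ k, k ≤ n → (2 * M + 1) * ‖c' - c‖ * (C + 2) ^ k ≤ t := by
    intro k hk
    have h1 : (C + 2) ^ k ≤ (C + 2) ^ n := pow_le_pow_right₀ (by linarith) hk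
    calc (2 * M + 1) * ‖c' - c‖ * (C + 2) ^ k ≤ (2 * M + 1) * ((C + 3)⁻¹) ^ n * (C + 2) ^ n := by
          gcongr
      _ = (2 * M + 1) * ((C + 2) / (C + 3)) ^ n := by
          rw [mul_assoc, ← mul_pow, inv_mul_eq_div]
      _ ≤ t := hn.le
  have key : ∀ k, k ≤ n → ‖P d (p * k) c' - P d (p * k) c‖ ≤
      (2 * M + 1) * ‖c' - c‖ * (C + 2) ^ k := by
    intro k
    induction k with
    | zero =>
      intro _
      rw [Nat.mul_zero, P_zero, P_zero, sub_zero, norm_zero]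
      positivity
    | succ k ih =>
      intro hk
      have h1 := ih (by omega)
      have h2 := h1.trans (hbd k (by omega))
      have h3 : P d (p * (k + 1)) c' = (fc d c')^[p] (P d (p * k) c') := by
        rw [iter_P]; congr 1; ring
      have h4 : P d (p * (k + 1)) c = (fc d c)^[p] (P d (p * k) c) := by
        rw [iter_P]; congr 1; ring
      rw [h3, h4]
      have h5 := hstep k _ h2
      have h6 := hLip c' (by rw [mem_closedBall, dist_eq_norm]; exact hs1) (P d (p * k) c') (by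
        rw [mem_closedBall_zero_iff]
        have h7 := norm_add_le (P d (p * k) c' - P d (p * k) c) (P d (p * k) c)
        rw [sub_add_cancel] at h7
        have := hb (p * k)
        linarith)
      have h8 : ‖(fc d c')^[p] (P d (p * k) c') - (fc d c)^[p] (P d (p * k) c)‖ ≤
          ‖(fc d c')^[p] (P d (p * k) c') - (fc d c)^[p] (P d (p * k) c')‖ +
          ‖(fc d c)^[p] (P d (p * k) c') - (fc d c)^[p] (P d (p * k) c)‖ := by
        have := norm_add_le ((fc d c')^[p] (P d (p * k) c') - (fc d c)^[p] (P d (p * k) c'))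
          ((fc d c)^[p] (P d (p * k) c') - (fc d c)^[p] (P d (p * k) c))
        rwa [sub_add_sub_cancel] at this
      have h9 : (1 : ℝ) ≤ (C + 2) ^ k := one_le_pow₀ (by linarith)
      have h10 : 0 ≤ ‖c' - c‖ := norm_nonneg _
      have h11 : (C + 1) * ‖P d (p * k) c' - P d (p * k) c‖ ≤
          (C + 1) * ((2 * M + 1) * ‖c' - c‖ * (C + 2) ^ k) := by gcongr
      have h12 : 2 * M * ‖c' - c‖ ≤ (2 * M + 1) * ‖c' - c‖ * (C + 2) ^ k := by
        calc 2 * M * ‖c' - c‖ ≤ (2 * M + 1) * ‖c' - c‖ := by nlinarith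
          _ ≤ (2 * M + 1) * ‖c' - c‖ * (C + 2) ^ k :=
            le_mul_of_one_le_right (by positivity) h9
      calc _ ≤ _ := h8
        _ ≤ (2 * M + 1) * ‖c' - c‖ * (C + 2) ^ k +
            (C + 1) * ((2 * M + 1) * ‖c' - c‖ * (C + 2) ^ k) := by linarith
        _ = (2 * M + 1) * ‖c' - c‖ * (C + 2) ^ (k + 1) := by ring
  have h1 := (key i hi).trans (hbd i hi)
  rw [mem_ball_zero_iff]
  have h7 := norm_add_le (P d (p * i) c' - P d (p * i) c) (P d (p * i) c)
  rw [sub_add_cancel] at h7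
  have := hb (p * i)
  by_contra hcon
  push Not at hcon
  have h8 : ‖P d (p * i) c' - P d (p * i) c‖ = 1 ∧ ‖P d (p * i) c‖ = 2 := by
    constructor <;> linarith
  have h9 := (key i hi).trans (hbd i hi)
  have h10 := hn
  have h11 : (2 * M + 1) * ‖c' - c‖ * (C + 2) ^ i < 1 := by
    have h12 : (C + 2) ^ i ≤ (C + 2) ^ n := pow_le_pow_right₀ (by linarith) hi
    calc (2 * M + 1) * ‖c' - c‖ * (C + 2) ^ i ≤ (2 * M + 1) * ((C + 3)⁻¹) ^ n * (C + 2) ^ n := by
          gcongr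
      _ = (2 * M + 1) * ((C + 2) / (C + 3)) ^ n := by
          rw [mul_assoc, ← mul_pow, inv_mul_eq_div]
      _ < t := hn
      _ ≤ 1 := ht1
  have h12 := key i hi
  linarith

/-- **No exceptional parameters with subexponential geometry, all degrees.** -/
theorem not_big_of_weak (hd : 2 ≤ d) (hψ : IsExteriorMap (multibrotSet d) ψ) {c : ℂ}
    (hc : c ∈ multibrotSet d)
    (h : ∀ ε : ℝ, 0 < ε → {p : ℕ | ∃ (U : Set ℂ) (r : ℝ), 0 < r ∧
      (∀ n : ℕ, ball (P d (n * p) c) r ⊆ U) ∧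
      ∀ z ∈ U, ∀ z' ∈ U, ‖(fc d c)^[p] z - (fc d c)^[p] z'‖ ≤ Real.exp (ε * p) * r}.Infinite) :
    ∀ κ : ℝ, 0 < κ → ¬ Big ψ κ c := by
  intro κ hκ hB
  have hdR : (1 : ℝ) < d := by exact_mod_cast (by omega : 1 < d)
  have hlogd : 0 < Real.log d := Real.log_pos hdR
  obtain ⟨ε, hε⟩ : ∃ ε, ε = Real.log d / (2 * κ) := ⟨_, rfl⟩
  have hε0 : 0 < ε := by rw [hε]; positivity
  obtain ⟨k, hk⟩ := exists_nat_gt (2 * κ * Real.log 4 / Real.log d)
  obtain ⟨p, ⟨U, r, hr, hball, hdiam⟩, hpk⟩ := (h ε hε0).exists_gt k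
  rw [div_lt_iff₀ hlogd] at hk
  have h1 : (k : ℝ) < p := by exact_mod_cast hpk
  have hp0 : (0 : ℝ) ≤ p := p.cast_nonneg
  obtain ⟨C, hC⟩ : ∃ C, C = Real.exp (ε * p) := ⟨_, rfl⟩
  have hC1 : 1 ≤ C := by
    rw [hC]
    exact Real.one_le_exp (by positivity)
  rw [← hC] at hdiam
  have hlogC0 : 0 < Real.log (C + 3) := Real.log_pos (by linarith)
  have hlogC : Real.log (C + 3) ≤ ε * p + Real.log 4 := by
    have h2 : C + 3 ≤ C * 4 := by linarith
    have h3 := Real.log_le_log (by linarith) h2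
    rw [Real.log_mul (by linarith) (by norm_num)] at h3
    have h4 : Real.log C = ε * p := by rw [hC, Real.log_exp]
    linarith
  have hεκ : ε * κ = Real.log d / 2 := by
    rw [hε]
    field_simp
  refine not_fast hd hc (by linarith) (deriv_le' hr hball hdiam) (fast_of_big hd (by omega) hψ hκ
    hlogC0 ?_ hB isBounded_ball)
  calc Real.log (C + 3) * κ ≤ (ε * p + Real.log 4) * κ := by gcongr
    _ = p * (ε * κ) + κ * Real.log 4 := by ring
    _ = p * (Real.log d / 2) + κ * Real.log 4 := by rw [hεκ]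
    _ < p * Real.log d := by nlinarith

end Pool.Agent.Q72.AC
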