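import Pool.Agent.Q72.AC.A
import Pool.Agent.Q72.AC.RN
import Pool.Agent.Q72.MR.E
import Pool.Agent.Helper202.Univ

set_option autoImplicit false

/-! # Access to renormalizable parameters -/

namespace Pool.Agent.Q72.AC

open Complex Filter Topology Set Metric MeasureTheory Pool.Agent.H713R2
open N62a1eb23
open Pool.Agent.H712R2 (P P_succ P_one P_zero fc)
open Pool.Agent.Y736.RN (Ren)
open Pool.Agent.Helper202.Univ (differentiableAt_inv)

/-- There is a path `γ` with `γ 0 = c` and Lipschitz constant one, such that the distance from `γ t`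
to `M` is at least `h t`. -/
def Access (M : Set ℂ) (c : ℂ) (h : ℝ → ℝ) : Prop :=
  ∃ (γ : ℝ → ℂ) (t₀ : ℝ), 0 < t₀ ∧ γ 0 = c ∧
    (∀ s ∈ Icc 0 t₀, ∀ t ∈ Icc 0 t₀, ‖γ s - γ t‖ ≤ |s - t|) ∧
    ∀ t ∈ Ioc 0 t₀, h t ≤ infDist (γ t) M

/-- Every direction at `c` is approximated by directions from `c` to points of `M` near `c`, with the
precision `g`. -/
def Directions (M : Set ℂ) (c : ℂ) (g : ℝ → ℝ) : Prop :=
  ∀ e : ℂ, ‖e‖ = 1 → ∀ δ : ℝ, 0 < δ →
    ∃ z ∈ M, 0 < ‖z - c‖ ∧ ‖z - c‖ < δ ∧ ‖(z - c) - ‖z - c‖ * e‖ ≤ g ‖z - c‖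

variable {M : Set ℂ} {c : ℂ} {ψ : ℂ → ℂ} {d : ℕ}

/-- Green's function along a path -/
theorem access_lower (hψ : IsExteriorMap M ψ) {h H : ℝ → ℝ} {γ : ℝ → ℂ} {t₀ : ℝ} (ht₀ : 0 < t₀)
    (hγ : ∀ s ∈ Icc 0 t₀, ∀ t ∈ Icc 0 t₀, ‖γ s - γ t‖ ≤ |s - t|)
    (hh : ∀ t ∈ Ioc 0 t₀, 0 < h t) (hd : ∀ t ∈ Ioc 0 t₀, h t ≤ infDist (γ t) M)
    (hH : ∀ t ∈ Ioc 0 t₀, HasDerivAt H (-(2 / h t)) t) :
    ∃ η : ℝ, 0 < η ∧ ∀ t ∈ Ioc 0 t₀, ∃ w : ℂ, 1 < ‖w‖ ∧ ψ w = γ t ∧
      η * Real.exp (-H t) ≤ Real.log ‖w‖ := by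
  obtain ⟨U, hU⟩ : ∃ U : Set ℂ, U = {w | 1 < ‖w‖} := ⟨_, rfl⟩
  have hUo : IsOpen U := by rw [hU]; exact isOpen_lt continuous_const continuous_norm
  have hψd : DifferentiableOn ℂ ψ U := by rw [hU]; exact hψ.diff
  have hψi : InjOn ψ U := by rw [hU]; exact hψ.inj
  have hψM : ψ '' U = Mᶜ := by rw [hU]; exact hψ.image
  obtain ⟨φ, hφ⟩ : ∃ φ, φ = Function.invFunOn ψ U := ⟨_, rfl⟩
  have hφ1 : ∀ x ∉ M, 1 < ‖φ x‖ := by
    intro x hx
    have h1 : x ∈ ψ '' U := by rw [hψM]; exact hx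
    have h2 := Function.invFunOn_mem h1
    rw [← hφ, hU] at h2
    exact h2
  have hφ2 : ∀ x ∉ M, ψ (φ x) = x := by
    intro x hx
    have h1 : x ∈ ψ '' U := by rw [hψM]; exact hx
    rw [hφ]
    exact Function.invFunOn_eq h1
  have hφd : ∀ x ∉ M, DifferentiableAt ℂ φ x := by
    intro x hx
    rw [hφ]
    exact differentiableAt_inv hUo hψd hψi (by rw [hψM]; exact hx)
  have hball : ∀ t ∈ Ioc 0 t₀, ∀ x ∈ ball (γ t) (infDist (γ t) M), x ∉ M := by
    intro t _ x hx hxM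
    rw [mem_ball'] at hx
    exact absurd hx (not_lt.2 (infDist_le_dist_of_mem hxM))
  have hDpos : ∀ t ∈ Ioc 0 t₀, 0 < infDist (γ t) M := fun t ht => (hh t ht).trans_le (hd t ht)
  have hnot : ∀ t ∈ Ioc 0 t₀, γ t ∉ M := fun t ht => hball t ht _ (mem_ball_self (hDpos t ht))
  obtain ⟨F, hF⟩ : ∃ F : ℂ → ℝ, F = fun x => Real.log (Real.log ‖φ x‖) := ⟨_, rfl⟩
  have hslope : ∀ t ∈ Ioc 0 t₀, ∀ ε : ℝ, 0 < ε → ∀ᶠ x in 𝓝 (γ t),
      |F x - F (γ t)| ≤ (2 / h t + ε) * ‖x - γ t‖ := by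
    intro t ht ε hε
    have h1 := log_slope (hDpos t ht) (g := φ)
      (fun x hx => (hφd x (hball t ht x hx)).differentiableWithinAt)
      (fun x hx => hφ1 x (hball t ht x hx)) ε hε
    filter_upwards [h1] with x hx
    rw [hF]
    refine hx.trans ?_
    have h2 : 2 / infDist (γ t) M ≤ 2 / h t := by
      have := hh t ht
      exact div_le_div_of_nonneg_left (by norm_num) this (hd t ht)
    gcongr
  have hsub : ∀ s ∈ Ioc 0 t₀, s ∈ Icc 0 t₀ := fun s hs => ⟨hs.1.le, hs.2⟩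
  refine ⟨Real.exp (F (γ t₀) + H t₀), Real.exp_pos _, ?_⟩
  intro t ht
  have h1 := path_lower (F := F) (γ := γ) (h := h) (H := H)
    (fun s hs t ht => hγ s (hsub s hs) t (hsub t ht)) hslope hh hH ht
  refine ⟨φ (γ t), hφ1 _ (hnot t ht), hφ2 _ (hnot t ht), ?_⟩
  have h2 : 0 < Real.log ‖φ (γ t)‖ := Real.log_pos (hφ1 _ (hnot t ht))
  have h3 : Real.log ‖φ (γ t)‖ = Real.exp (F (γ t)) := by
    rw [hF]
    exact (Real.exp_log h2).symm
  rw [h3, ← Real.exp_add]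
  apply Real.exp_le_exp.2
  linarith

/-- **Conical access**: Green's function is at least a power. -/
theorem big_of_access (hψ : IsExteriorMap M ψ) {ε : ℝ} (hε : 0 < ε)
    (h : Access M c fun t => ε * t) : Big ψ (2 / ε) c := by
  obtain ⟨γ, t₀, ht₀, hγ0, hγ, hd⟩ := h
  obtain ⟨η, hη, hmain⟩ := access_lower hψ (H := fun t => -(2 / ε) * Real.log t) ht₀ hγ
    (fun t ht => mul_pos hε ht.1) hd (by
      intro t ht
      have h1 := (Real.hasDerivAt_log ht.1.ne').const_mul (-(2 / ε))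
      have h2 : -(2 / ε) * t⁻¹ = -(2 / (ε * t)) := by
        have := ht.1
        field_simp
      rwa [h2] at h1)
  refine ⟨η, hη, ?_⟩
  apply Eventually.frequently
  filter_upwards [Ioc_mem_nhdsGT ht₀] with r hr
  obtain ⟨w, h1, h2, h3⟩ := hmain r hr
  refine ⟨w, h1, ?_, ?_⟩
  · have h4 := hγ r ⟨hr.1.le, hr.2⟩ 0 ⟨le_rfl, ht₀.le⟩
    rw [hγ0, sub_zero, abs_of_pos hr.1] at h4
    rwa [h2]
  · refine le_trans (le_of_eq ?_) h3
    rw [Real.rpow_def_of_pos hr.1]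
    congr 2
    ring

/-- **Access through horns**: Green's function is not exponentially small. -/
theorem horn_lower (hψ : IsExteriorMap M ψ) {κ β : ℝ} (hκ : 0 < κ) (hβ : 0 < β)
    (h : Access M c fun t => κ * t ^ (1 + β)) : ∃ η B t₀ : ℝ, 0 < η ∧ 0 < B ∧ 0 < t₀ ∧
      ∀ r ∈ Ioc 0 t₀, ∃ w : ℂ, 1 < ‖w‖ ∧ ‖ψ w - c‖ ≤ r ∧
        η * Real.exp (-(B * r ^ (-β))) ≤ Real.log ‖w‖ := by
  obtain ⟨γ, t₀, ht₀, hγ0, hγ, hd⟩ := h
  obtain ⟨η, hη, hmain⟩ := access_lower hψ (H := fun t => 2 / (κ * β) * t ^ (-β)) ht₀ hγ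
    (fun t ht => mul_pos hκ (Real.rpow_pos_of_pos ht.1 _)) hd (by
      intro t ht
      have h1 := (Real.hasDerivAt_rpow_const (p := -β) (Or.inl ht.1.ne')).const_mul (2 / (κ * β))
      have h2 : 2 / (κ * β) * (-β * t ^ (-β - 1)) = -(2 / (κ * t ^ (1 + β))) := by
        rw [show -β - 1 = -(1 + β) by ring, Real.rpow_neg ht.1.le]
        have := Real.rpow_pos_of_pos ht.1 (1 + β)
        field_simp
      rwa [h2] at h1)
  refine ⟨η, 2 / (κ * β), t₀, hη, by positivity, ht₀, ?_⟩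
  intro r hr
  obtain ⟨w, h1, h2, h3⟩ := hmain r hr
  refine ⟨w, h1, ?_, h3⟩
  have h4 := hγ r ⟨hr.1.le, hr.2⟩ 0 ⟨le_rfl, ht₀.le⟩
  rw [hγ0, sub_zero, abs_of_pos hr.1] at h4
  rwa [h2]

/-- a missing sector gives conical access -/
theorem access_of_sector (hM : M.Nonempty) {ε : ℝ} (hε0 : 0 < ε) (hε1 : ε ≤ 1)
    (h : ¬ Directions M c fun t => ε * t) : Access M c fun t => 2 / 3 * ε * t := by
  unfold Directions at h
  push Not at h
  obtain ⟨e, he, δ, hδ, hmiss⟩ := h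
  refine ⟨fun t => c + t * e, δ / 2, by positivity, by simp, ?_, ?_⟩
  · intro s _ t _
    rw [add_sub_add_left_eq_sub, ← sub_mul, norm_mul, he, mul_one, ← Complex.ofReal_sub,
      Complex.norm_real, Real.norm_eq_abs]
  · intro t ht
    have ht0 := ht.1
    have ht1 := ht.2
    rw [le_infDist hM]
    intro z hz
    rw [dist_comm, dist_eq_norm, ← sub_sub]
    obtain ⟨v, hv⟩ : ∃ v, v = z - c := ⟨_, rfl⟩
    obtain ⟨ρ, hρ⟩ : ∃ ρ, ρ = ‖v‖ := ⟨_, rfl⟩
    have hρ0 : 0 ≤ ρ := by rw [hρ]; exact norm_nonneg _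
    have h2 : ‖(t : ℂ) * e‖ = t := by
      rw [norm_mul, he, mul_one, Complex.norm_real, Real.norm_of_nonneg ht0.le]
    rw [← hv]
    rcases hρ0.eq_or_lt with h0 | h0
    · have hv0 : v = 0 := by rw [← norm_eq_zero, ← hρ, h0]
      rw [hv0, zero_sub, norm_neg, h2]
      nlinarith
    · rcases lt_or_ge ρ δ with h1 | h1
      · have h3 := hmiss z hz (by rw [← hv, ← hρ]; exact h0) (by rw [← hv, ← hρ]; exact h1)
        rw [← hv, ← hρ] at h3
        -- the computation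
        have he2 : e.re ^ 2 + e.im ^ 2 = 1 := by
          have := Complex.sq_norm e
          rw [he, Complex.normSq_apply] at this
          nlinarith
        have hv2 : v.re ^ 2 + v.im ^ 2 = ρ ^ 2 := by
          have := Complex.sq_norm v
          rw [← hρ, Complex.normSq_apply] at this
          nlinarith
        have hform : ∀ x : ℝ, ‖v - x * e‖ ^ 2 =
            ρ ^ 2 + x ^ 2 - 2 * x * (v.re * e.re + v.im * e.im) := by
          intro x
          rw [Complex.sq_norm, Complex.normSq_apply]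
          simp only [Complex.sub_re, Complex.sub_im, Complex.mul_re, Complex.mul_im,
            Complex.ofReal_re, Complex.ofReal_im, zero_mul, sub_zero, add_zero]
          nlinarith
        obtain ⟨q, hq⟩ : ∃ q, q = v.re * e.re + v.im * e.im := ⟨_, rfl⟩
        have h4 : (ε * ρ) ^ 2 < ‖v - ρ * e‖ ^ 2 := by
          apply pow_lt_pow_left₀ h3 (by positivity) two_ne_zero
        rw [hform, ← hq] at h4
        have h5 : q < ρ * (1 - ε ^ 2 / 2) := by
          have h6 : ρ * q < ρ * (ρ * (1 - ε ^ 2 / 2)) := by nlinarith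
          exact lt_of_mul_lt_mul_left h6 h0.le
        have h7 : (2 / 3 * ε * t) ^ 2 ≤ ‖v - t * e‖ ^ 2 := by
          rw [hform, ← hq]
          have h8 : ρ ^ 2 + t ^ 2 - 2 * t * (ρ * (1 - ε ^ 2 / 2)) ≤ ρ ^ 2 + t ^ 2 - 2 * t * q := by
            nlinarith
          refine le_trans ?_ h8
          have h9 : ρ ^ 2 + t ^ 2 - 2 * t * (ρ * (1 - ε ^ 2 / 2)) =
              (ρ - t * (1 - ε ^ 2 / 2)) ^ 2 + t ^ 2 * (ε ^ 2 * (1 - ε ^ 2 / 4)) := by ring
          rw [h9]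
          have h10 : 4 / 9 ≤ 1 - ε ^ 2 / 4 := by nlinarith
          have h11 : (2 / 3 * ε * t) ^ 2 = t ^ 2 * (ε ^ 2 * (4 / 9)) := by ring
          rw [h11]
          have h12 : t ^ 2 * (ε ^ 2 * (4 / 9)) ≤ t ^ 2 * (ε ^ 2 * (1 - ε ^ 2 / 4)) := by gcongr
          have h13 := sq_nonneg (ρ - t * (1 - ε ^ 2 / 2))
          linarith
        exact (pow_le_pow_iff_left₀ (by positivity) (norm_nonneg _) two_ne_zero).1 h7
      · have h3 := norm_sub_norm_le v ((t : ℂ) * e)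
        rw [h2, ← hρ] at h3
        nlinarith

/-- a missing horn gives access through a horn -/
theorem access_of_horn (hM : M.Nonempty) {κ b : ℝ} (hκ : 0 < κ) (hb : 0 ≤ b)
    (h : ¬ Directions M c fun t => κ * t ^ (1 + b)) :
    ∃ κ' : ℝ, 0 < κ' ∧ Access M c fun t => κ' * t ^ (1 + b) := by
  unfold Directions at h
  push Not at h
  obtain ⟨e, he, δ₀, hδ₀, hmiss⟩ := h
  obtain ⟨δ, hδ⟩ : ∃ δ, δ = min δ₀ 1 := ⟨_, rfl⟩
  have hδ0 : 0 < δ := by rw [hδ]; exact lt_min hδ₀ one_pos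
  have hδ1 : δ ≤ 1 := by rw [hδ]; exact min_le_right _ _
  have hδ2 : δ ≤ δ₀ := by rw [hδ]; exact min_le_left _ _
  obtain ⟨κ', hκ'⟩ : ∃ κ', κ' = min (κ * (1 / 2) ^ (1 + b) / 4) (1 / 4) := ⟨_, rfl⟩
  have hκ'0 : 0 < κ' := by
    rw [hκ']
    exact lt_min (by positivity) (by norm_num)
  have hκ'1 : κ' ≤ κ * (1 / 2) ^ (1 + b) / 4 := by rw [hκ']; exact min_le_left _ _
  have hκ'2 : κ' ≤ 1 / 4 := by rw [hκ']; exact min_le_right _ _
  refine ⟨κ', hκ'0, fun t => c + t * e, δ / 2, by positivity, by simp, ?_, ?_⟩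
  · intro s _ t _
    rw [add_sub_add_left_eq_sub, ← sub_mul, norm_mul, he, mul_one, ← Complex.ofReal_sub,
      Complex.norm_real, Real.norm_eq_abs]
  · intro t ht
    have ht0 := ht.1
    have ht1 := ht.2
    rw [le_infDist hM]
    intro z hz
    by_contra hcon
    push Not at hcon
    rw [dist_comm, dist_eq_norm] at hcon
    have htp : 0 < t ^ (1 + b) := Real.rpow_pos_of_pos ht0 _
    have htb : t ^ (1 + b) ≤ t := by
      have h1 := Real.rpow_le_rpow_of_exponent_ge ht0 (by linarith) (by linarith : (1 : ℝ) ≤ 1 + b)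
      rwa [Real.rpow_one] at h1
    have h1 : ‖z - c - t * e‖ < κ' * t ^ (1 + b) := by rwa [sub_sub]
    have h1' : κ' * t ^ (1 + b) ≤ 1 / 4 * t := mul_le_mul hκ'2 htb htp.le (by norm_num)
    have h2 : ‖(t : ℂ) * e‖ = t := by
      rw [norm_mul, he, mul_one, Complex.norm_real, Real.norm_of_nonneg ht0.le]
    have h3 := norm_sub_norm_le ((t : ℂ) * e) (z - c)
    rw [norm_sub_rev ((t : ℂ) * e) (z - c), h2] at h3
    have h4 := norm_sub_norm_le (z - c) ((t : ℂ) * e)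
    rw [h2] at h4
    obtain ⟨ρ, hρ⟩ : ∃ ρ, ρ = ‖z - c‖ := ⟨_, rfl⟩
    rw [← hρ] at h3 h4
    have hρ1 : 3 / 4 * t ≤ ρ := by linarith
    have hρ2 : ρ < δ := by linarith
    have h5 := hmiss z hz (by rw [← hρ]; linarith) (by rw [← hρ]; linarith)
    rw [← hρ] at h5
    have h6 : ‖z - c - ρ * e‖ ≤ ‖z - c - t * e‖ + |t - ρ| := by
      have h7 := norm_add_le (z - c - t * e) (((t - ρ : ℝ) : ℂ) * e)
      rw [norm_mul, he, mul_one, Complex.norm_real, Real.norm_eq_abs] at h7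
      have h8 : z - c - t * e + ((t - ρ : ℝ) : ℂ) * e = z - c - ρ * e := by
        push_cast
        ring
      rwa [h8] at h7
    have h9 : |t - ρ| < κ' * t ^ (1 + b) := by
      rw [abs_lt]
      constructor <;> linarith
    have h10 : (1 / 2) ^ (1 + b) * t ^ (1 + b) ≤ ρ ^ (1 + b) := by
      rw [← Real.mul_rpow (by norm_num) ht0.le]
      exact Real.rpow_le_rpow (by positivity) (by linarith) (by linarith)
    have h11 : κ * ((1 / 2) ^ (1 + b) * t ^ (1 + b)) ≤ κ * ρ ^ (1 + b) := by gcongr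
    have h12 : κ' * t ^ (1 + b) ≤ κ * (1 / 2) ^ (1 + b) / 4 * t ^ (1 + b) := by gcongr
    have h13 : 0 < κ * (1 / 2) ^ (1 + b) * t ^ (1 + b) := by positivity
    nlinarith

theorem nonempty_multibrot (d : ℕ) (hd : 2 ≤ d) : (multibrotSet d).Nonempty := by
  refine ⟨0, (Pool.Agent.H712R2.mem_multibrot_iff hd 0).2 ?_⟩
  intro n
  have h0 : ∀ n, P d n (0 : ℂ) = 0 := by
    intro n
    induction n with
    | zero => exact P_zero d 0
    | succ n ih => rw [P_succ, ih, zero_pow (by omega), zero_add]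
  rw [h0, norm_zero]
  norm_num

/-- **The dimension of the accessible renormalizable parameters.** -/
theorem dim_access (hd : 2 ≤ d) {p : ℕ} (hp : 1 ≤ p) {ε : ℝ} (hε : 0 < ε) :
    dimH {c | Ren d c p ∧ Access (multibrotSet d) c fun t => ε * t} ≤
      ENNReal.ofReal (2 / (ε * p)) := by
  obtain ⟨β, hβ⟩ := exists_beta (d := d) hd
  have hψ := exteriorMap_of_beta hβ
  have h1 : {c | Ren d c p ∧ Access (multibrotSet d) c fun t => ε * t} ⊆
      {c | Ren d c p ∧ Big _ (2 / ε) c} := fun c hc => ⟨hc.1, big_of_access hψ hε hc.2⟩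
  refine (dimH_mono h1).trans ((dim_big hd hp hψ (by positivity)).trans (le_of_eq ?_))
  congr 1
  field_simp

/-- **The dimension of the renormalizable parameters with a missing sector.** -/
theorem dim_sector (hd : 2 ≤ d) {p : ℕ} (hp : 1 ≤ p) {ε : ℝ} (hε : 0 < ε) (hε1 : ε ≤ 1) :
    dimH {c | Ren d c p ∧ ¬ Directions (multibrotSet d) c fun t => ε * t} ≤
      ENNReal.ofReal (3 / (ε * p)) := by
  have h1 : {c | Ren d c p ∧ ¬ Directions (multibrotSet d) c fun t => ε * t} ⊆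
      {c | Ren d c p ∧ Access (multibrotSet d) c fun t => 2 / 3 * ε * t} := fun c hc =>
    ⟨hc.1, access_of_sector (nonempty_multibrot d hd) hε hε1 hc.2⟩
  refine (dimH_mono h1).trans ((dim_access hd hp (by positivity)).trans (le_of_eq ?_))
  congr 1
  have : (0 : ℝ) < p := by exact_mod_cast hp
  field_simp

theorem dim_access_inf (hd : 2 ≤ d) {A : Set ℂ} (hA : ∀ c ∈ A, {p : ℕ | Ren d c p}.Infinite ∧
    ∃ ε : ℝ, 0 < ε ∧ Access (multibrotSet d) c fun t => ε * t) : dimH A = 0 := by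
  obtain ⟨β, hβ⟩ := exists_beta (d := d) hd
  have hψ := exteriorMap_of_beta hβ
  apply dim_inf hd hψ
  intro c hc
  obtain ⟨h1, ε, hε, h2⟩ := hA c hc
  exact ⟨h1, 2 / ε, by positivity, big_of_access hψ hε h2⟩

/-- **No conical access under subexponential bounds.** -/
theorem no_access (hd : 2 ≤ d) {c : ℂ} (hc : c ∈ multibrotSet d)
    (h : ∀ ε : ℝ, 0 < ε → {p : ℕ | ∃ (U : Set ℂ) (r : ℝ), 0 < r ∧
      (∀ n : ℕ, ball (P d (n * p) c) r ⊆ U) ∧
      ∀ z ∈ U, ∀ z' ∈ U, ‖(fc d c)^[p] z - (fc d c)^[p] z'‖ ≤ Real.exp (ε * p) * r}.Infinite)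
    {ε : ℝ} (hε : 0 < ε) : ¬ Access (multibrotSet d) c fun t => ε * t := by
  obtain ⟨β, hβ⟩ := exists_beta (d := d) hd
  have hψ := exteriorMap_of_beta hβ
  intro h1
  exact not_big_of_weak hd hψ hc h (2 / ε) (by positivity) (big_of_access hψ hε h1)

/-- **No access through horns for bounded type.** -/
theorem no_horn (hd : 2 ≤ d) {c : ℂ} (hc : c ∈ multibrotSet d)
    {C : ℝ} {p : ℕ → ℕ} (hp0 : 1 ≤ p 0)
    (hp : ∀ k, p k < p (k + 1) ∧ p k ∣ p (k + 1))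
    (hlev : ∀ k, ∃ r, Pool.Agent.Q72.MR.Lev d c C (p k) r)
    {τ : ℝ} (hτ : ∀ k, (p (k + 1) : ℝ) / p k ≤ τ * Real.log (p (k + 1) / p k))
    {κ b : ℝ} (hκ : 0 < κ) (hb : 0 < b) (hbA : b * (4 * τ * Real.log (2 * C)) < 1) :
    ¬ Access (multibrotSet d) c fun t => κ * t ^ (1 + b) := by
  obtain ⟨β, hβ⟩ := exists_beta (d := d) hd
  have hψ := exteriorMap_of_beta hβ
  intro hacc
  obtain ⟨η, hη, h1, -, -⟩ := Pool.Agent.Q72.MR.main_points hd hψ hc hp0 hp hlev hτ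
  obtain ⟨η', B, t₀, hη', hB, ht₀, h2⟩ := horn_lower hψ hκ hb hacc
  have hA0 : 0 < 4 * τ * Real.log (2 * C) := Pool.Agent.Q72.MR.A_pos hp0 hp hlev hτ
  obtain ⟨A, hA⟩ : ∃ A, A = 4 * τ * Real.log (2 * C) := ⟨_, rfl⟩
  rw [← hA] at h1 hbA hA0
  -- the two bounds at the radius `r`
  have hcmp : ∀ r : ℝ, 0 < r → r < min t₀ η →
      η * r ^ (-(1 / A)) ≤ B * r ^ (-b) - Real.log η' := by
    intro r hr0 hr
    obtain ⟨w, hw1, hw2, hw3⟩ := h2 r ⟨hr0, (hr.trans_le (min_le_left _ _)).le⟩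
    have h4 := (h1 r hr0 (hr.trans_le (min_le_right _ _))).2 w hw1 hw2
    have h5 := hw3.trans h4
    have h6 := Real.log_le_log (by positivity) h5
    rw [Real.log_mul hη'.ne' (Real.exp_pos _).ne', Real.log_exp, Real.log_exp] at h6
    linarith
  -- the exponent `1 / A` is larger
  have hgap : 0 < 1 / A - b := by
    rw [sub_pos, lt_div_iff₀ hA0]
    exact hbA
  have hlim1 : Tendsto (fun r : ℝ => r ^ (1 / A - b)) (𝓝[>] 0) (𝓝 0) := by
    have h3 := (Real.continuousAt_rpow_const 0 (1 / A - b) (Or.inr hgap.le)).tendsto.mono_left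
      (nhdsWithin_le_nhds (s := Ioi (0 : ℝ)))
    rwa [Real.zero_rpow hgap.ne'] at h3
  have hlim2 : Tendsto (fun r : ℝ => r ^ (1 / A)) (𝓝[>] 0) (𝓝 0) := by
    have hA1 : 0 < 1 / A := by positivity
    have h3 := (Real.continuousAt_rpow_const 0 (1 / A) (Or.inr hA1.le)).tendsto.mono_left
      (nhdsWithin_le_nhds (s := Ioi (0 : ℝ)))
    rwa [Real.zero_rpow hA1.ne'] at h3
  have hlim : Tendsto (fun r : ℝ => B * r ^ (1 / A - b) - Real.log η' * r ^ (1 / A)) (𝓝[>] 0)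
      (𝓝 (B * 0 - Real.log η' * 0)) := (hlim1.const_mul B).sub (hlim2.const_mul _)
  rw [mul_zero, mul_zero, sub_zero] at hlim
  obtain ⟨r, hr1, hr0, hr2⟩ := ((hlim.eventually (gt_mem_nhds hη)).and
    (ev_pos.and (ev_lt (lt_min ht₀ hη)))).exists
  have h3 := hcmp r hr0 hr2
  have h4 : 0 < r ^ (1 / A) := Real.rpow_pos_of_pos hr0 _
  have h5 := mul_le_mul_of_nonneg_right h3 h4.le
  have e1 : η * r ^ (-(1 / A)) * r ^ (1 / A) = η := by
    rw [mul_assoc, ← Real.rpow_add hr0, neg_add_cancel, Real.rpow_zero, mul_one]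
  have e2 : (B * r ^ (-b) - Real.log η') * r ^ (1 / A) =
      B * r ^ (1 / A - b) - Real.log η' * r ^ (1 / A) := by
    rw [sub_mul, mul_assoc, ← Real.rpow_add hr0, show -b + 1 / A = 1 / A - b by ring]
  rw [e1, e2] at h5
  linarith

end Pool.Agent.Q72.AC
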