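import Pool.Agent.Q72.AC.C

set_option autoImplicit false

/-! # One renormalization with bounds -/

namespace Pool.Agent.Q72.AC

open Complex Filter Topology Set Metric MeasureTheory Pool.Agent.H713R2
open N62a1eb23
open Pool.Agent.H712R2 (P P_succ P_one P_zero fc)
open Pool.Agent.Y736.RN (Ren)

variable {ψ : ℂ → ℂ} {d : ℕ}

/-- Green's function at a parameter with one renormalization with bounds -/
theorem not_big_of_level (hd : 2 ≤ d) (hψ : IsExteriorMap (multibrotSet d) ψ) {c : ℂ}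
    (hc : c ∈ multibrotSet d) {p : ℕ} (hp : 1 ≤ p) {U : Set ℂ} {C r : ℝ} (hr : 0 < r)
    (hball : ∀ n : ℕ, ball (P d (n * p) c) r ⊆ U)
    (hdiam : ∀ z ∈ U, ∀ z' ∈ U, ‖(fc d c)^[p] z - (fc d c)^[p] z'‖ ≤ C * r)
    {κ : ℝ} (hκ : 0 < κ) (h : Real.log (C + 3) * κ < p * Real.log d) : ¬ Big ψ κ c := by
  intro hB
  have h1 := deriv_le' hr hball hdiam
  have hC : 0 ≤ C := (norm_nonneg _).trans (h1 0)
  exact not_fast hd hc hC h1
    (fast_of_big hd hp hψ hκ (Real.log_pos (by linarith)) h hB isBounded_ball)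

/-- **No conical access at a parameter with one renormalization with bounds.** -/
theorem no_access_level (hd : 2 ≤ d) {c : ℂ} (hc : c ∈ multibrotSet d) {p : ℕ} (hp : 1 ≤ p)
    {U : Set ℂ} {C r : ℝ} (hr : 0 < r) (hball : ∀ n : ℕ, ball (P d (n * p) c) r ⊆ U)
    (hdiam : ∀ z ∈ U, ∀ z' ∈ U, ‖(fc d c)^[p] z - (fc d c)^[p] z'‖ ≤ C * r)
    {ε : ℝ} (hε : 0 < ε) (h : 2 * Real.log (C + 3) < ε * p * Real.log d) :
    ¬ Access (multibrotSet d) c fun t => ε * t := by
  obtain ⟨β, hβ⟩ := exists_beta (d := d) hd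
  have hψ := exteriorMap_of_beta hβ
  intro h1
  refine not_big_of_level hd hψ hc hp hr hball hdiam (κ := 2 / ε) (by positivity) ?_
    (big_of_access hψ hε h1)
  rw [mul_div_assoc', div_lt_iff₀ hε]
  linarith

/-- **Directions at a parameter with one renormalization with bounds.** -/
theorem directions_level (hd : 2 ≤ d) {c : ℂ} (hc : c ∈ multibrotSet d) {p : ℕ} (hp : 1 ≤ p)
    {U : Set ℂ} {C r : ℝ} (hr : 0 < r) (hball : ∀ n : ℕ, ball (P d (n * p) c) r ⊆ U)
    (hdiam : ∀ z ∈ U, ∀ z' ∈ U, ‖(fc d c)^[p] z - (fc d c)^[p] z'‖ ≤ C * r)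
    {ε : ℝ} (hε : 0 < ε) (hε1 : ε ≤ 1) (h : 3 * Real.log (C + 3) < ε * p * Real.log d) :
    Directions (multibrotSet d) c fun t => ε * t := by
  by_contra hcon
  refine no_access_level hd hc hp hr hball hdiam (ε := 2 / 3 * ε) (by positivity) ?_
    (access_of_sector (nonempty_multibrot d hd) hε hε1 hcon)
  linarith

/-- from one level to infinitely many -/
theorem level_of_exp {ε L : ℝ} (hL : 0 < L) (hε : 0 < ε) : ∃ η : ℝ, 0 < η ∧ ∃ k : ℕ, ∀ p : ℕ,
    k < p → ∀ C : ℝ, C ≤ Real.exp (η * p) → 0 ≤ C → 3 * Real.log (C + 3) < ε * p * L := by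
  refine ⟨ε * L / 6, by positivity, ?_⟩
  obtain ⟨k, hk⟩ := exists_nat_gt (6 * Real.log 4 / (ε * L))
  refine ⟨k, ?_⟩
  intro p hp C hC hC0
  have hεL : 0 < ε * L := by positivity
  rw [div_lt_iff₀ hεL] at hk
  have h1 : (k : ℝ) < p := by exact_mod_cast hp
  have hE : 1 ≤ Real.exp (ε * L / 6 * p) := Real.one_le_exp (by positivity)
  have h2 : C + 3 ≤ Real.exp (ε * L / 6 * p) * 4 := by linarith
  have h3 := Real.log_le_log (by linarith) h2
  rw [Real.log_mul (Real.exp_pos _).ne' (by norm_num), Real.log_exp] at h3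
  nlinarith

end Pool.Agent.Q72.AC
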